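import Mathlib

namespace Pool.Agent.Results.MP_b7336c_co.Power
open Finset

/-- binary representation, most significant digit first. -/
def bin (j : ℕ) : List ℕ := (Nat.digits 2 j).reverse

/-- number of (overlapping) occurrences of the word w as a block of consecutive letters of u. -/
def occ (w u : List ℕ) : ℕ :=
  ((range (u.length + 1)).filter (fun k => (u.drop k).take w.length = w)).card

/-- the pattern-count matrix; index i stands for the integer i + 1. -/
def M (N : ℕ) : Matrix (Fin N) (Fin N) ℤ :=
  Matrix.of fun i j => (occ (bin (j.val + 1)) (bin (i.val + 1)) : ℤ)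

lemma bin_inj {a b : ℕ} (h : bin a = bin b) : a = b :=
  Nat.digits.injective 2 (List.reverse_injective h)

lemma bin_ne (a : ℕ) : bin (a + 1) ≠ [] := by
  simp [bin, Nat.digits_ne_nil_iff_ne_zero]

lemma occ_le {w u : List ℕ} (hw : w ≠ []) (h : u.length ≤ w.length) :
    occ w u = if u = w then 1 else 0 := by
  have hl := List.length_pos_iff.mpr hw
  have k0 : ∀ k, (u.drop k).take w.length = w → k = 0 ∧ u = w := by
    intro k hk
    have h1 := congrArg List.length hk
    simp only [List.length_take, List.length_drop] at h1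
    have : k = 0 := by omega
    subst this
    rw [List.drop_zero, List.take_of_length_le h] at hk
    exact ⟨rfl, hk⟩
  unfold occ
  split_ifs with e
  · rw [card_eq_one]
    refine ⟨0, ?_⟩
    ext k
    simp only [mem_filter, mem_range, mem_singleton]
    exact ⟨fun hk => (k0 k hk.2).1, fun hk => by subst hk; simp [e]⟩
  · rw [card_eq_zero, filter_eq_empty_iff]
    exact fun k _ hk => e (k0 k hk).2

lemma bin_pow (t : ℕ) : bin (2 ^ t) = 1 :: List.replicate t 0 := by
  have := Nat.digits_base_pow_mul (b := 2) (k := t) (m := 1) (by norm_num) (by norm_num)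
  simp only [mul_one] at this
  rw [bin, this]
  simp

lemma bin_head (a : ℕ) : ∃ l, bin (a + 1) = 1 :: l := by
  have h := Nat.digits_ne_nil_iff_ne_zero (b := 2) (n := a + 1) |>.mpr (by omega)
  have h1 := Nat.getLast_digit_ne_zero 2 (m := a + 1) (by omega)
  have h2 := Nat.digits_lt_base (b := 2) (m := a + 1) (by norm_num) (List.getLast_mem h)
  refine ⟨(Nat.digits 2 (a + 1)).dropLast.reverse, ?_⟩
  have h3 : (Nat.digits 2 (a + 1)).getLast h = 1 := by omega
  rw [bin, ← List.dropLast_append_getLast h, h3]
  simp

lemma occ_pow (t a : ℕ) (h : (bin (a + 1)).length ≤ t + 1) :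
    occ (bin (a + 1)) (bin (2 ^ t)) =
      if a + 1 = 2 ^ ((bin (a + 1)).length - 1) then 1 else 0 := by
  obtain ⟨l, hl⟩ := bin_head a
  have k0 : ∀ k, ((bin (2 ^ t)).drop k).take (bin (a + 1)).length = bin (a + 1) ↔
      k = 0 ∧ a + 1 = 2 ^ ((bin (a + 1)).length - 1) := by
    intro k
    have e1 : a + 1 = 2 ^ ((bin (a + 1)).length - 1) ↔ List.replicate l.length 0 = l := by
      constructor
      · intro e
        have := bin_pow ((bin (a + 1)).length - 1)
        rw [← e, hl] at this
        simpa using this.symm
      · intro e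
        apply bin_inj
        rw [bin_pow, hl]
        simp [e]
    rw [e1, bin_pow, hl]
    rw [hl] at h
    simp only [List.length_cons] at h
    cases k with
    | zero => simp [List.take_replicate, min_eq_left (show l.length ≤ t by omega)]
    | succ k =>
      simp only [List.drop_succ_cons, List.drop_replicate, List.take_replicate, List.length_cons]
      constructor
      · intro e
        have : (1 : ℕ) ∈ List.replicate (min (l.length + 1) (t - k)) 0 := by rw [e]; simp
        simp at this
      · intro e; simp at e
  unfold occ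
  simp only [k0]
  split_ifs with e
  · rw [card_eq_one]
    exact ⟨0, by ext k; simp [← e]⟩
  · simp [e]

lemma len_pow (t : ℕ) : (bin (2 ^ t)).length = t + 1 := by simp [bin_pow]

lemma len_lt {a t : ℕ} (h : a < 2 ^ t) : (bin a).length ≤ t := by
  simp only [bin, List.length_reverse]
  exact (Nat.digits_length_le_iff (by norm_num) a).mpr h

lemma main (n T : ℕ) (hT : T = 2 ^ n) (i j : Fin (2 ^ T)) :
    (M (2 ^ T) ^ T) i j ≡
      (if i = j then 1 else 0) + (if i.val + 1 = 2 ^ T ∧ j.val + 1 = 1 then 1 else 0)
      [ZMOD 2] := by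
  obtain ⟨len, hlen⟩ : ∃ len : Fin (2 ^ T) → ℕ, ∀ i, len i = (bin (i.val + 1)).length :=
    ⟨_, fun _ => rfl⟩
  have l1 : ∀ i, 1 ≤ len i := fun i => by
    rw [hlen]; exact List.length_pos_iff.mpr (bin_ne _)
  obtain ⟨K, hK⟩ : ∃ K : Matrix (Fin (2 ^ T)) (Fin (2 ^ T)) (ZMod 2), ∀ i j,
      K i j = if len j < len i then (occ (bin (j.val + 1)) (bin (i.val + 1)) : ZMod 2) else 0 :=
    ⟨Matrix.of _, fun _ _ => rfl⟩
  have hM : (Int.castRingHom (ZMod 2)).mapMatrix (M (2 ^ T)) = 1 + K := by
    ext i j
    simp only [RingHom.mapMatrix_apply, Matrix.map_apply, M, Matrix.of_apply, Matrix.add_apply,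
      hK, Matrix.one_apply, eq_intCast, Int.cast_natCast]
    by_cases h : len j < len i
    · have : i ≠ j := fun e => by rw [e] at h; omega
      simp [h, this]
    · rw [hlen, hlen] at h
      rw [occ_le (bin_ne _) (not_lt.mp h), hlen, hlen, if_neg h]
      by_cases e : i = j
      · simp [e]
      · have : bin (i.val + 1) ≠ bin (j.val + 1) := fun e2 => e (Fin.ext (by
          have := bin_inj e2; omega))
        simp [e, this]
  have hp : ∀ m i j, len i ≤ len j + m → (K ^ m) i j =
      if len i = len j + m ∧ (m = 0 → i = j) ∧ (K ^ m) i j = 1 then 1 else 0 := by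
    intro m
    induction m with
    | zero => intro i j _; by_cases e : i = j <;> simp [Matrix.one_apply, e]
    | succ m ih =>
      intro i j h
      by_cases h2 : len i = len j + (m + 1)
      · simp only [h2, true_and, Nat.add_eq_zero_iff, one_ne_zero, and_false, false_imp_iff]
        generalize (K ^ (m + 1)) i j = z
        revert z
        decide
      · rw [if_neg (fun h => h2 h.1), pow_succ, Matrix.mul_apply]
        refine sum_eq_zero (fun k _ => ?_)
        rw [hK]
        split_ifs with h3
        · rw [ih i k (by omega), if_neg (fun h => by omega), zero_mul]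
        · simp
  have hz : ∀ m i j, len i < len j + m → (K ^ m) i j = 0 := fun m i j h => by
    rw [hp m i j h.le, if_neg (fun h => by omega)]
  have hq : ∀ m, m ≤ T → ∀ i j : Fin (2 ^ T), i.val + 1 = 2 ^ T → len j + m = T + 1 →
      (K ^ m) i j = if j.val + 1 = 2 ^ (T - m) then 1 else 0 := by
    intro m
    induction m with
    | zero =>
      intro _ i j hi hj
      have : j.val + 1 = 2 ^ T := by
        by_contra hh
        have := len_lt (a := j.val + 1) (t := T) (by have := j.2; omega)
        rw [← hlen] at this
        omega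
      have e : i = j := Fin.ext (by omega)
      simp [e, this]
    | succ m ih =>
      intro hm i j hi hj
      have li : len i = T + 1 := by rw [hlen, hi, len_pow]
      have hlt : 2 ^ (T - m) - 1 < 2 ^ T := by
        have := Nat.pow_le_pow_right (show 0 < 2 by norm_num) (show T - m ≤ T by omega)
        have := Nat.two_pow_pos (T - m)
        omega
      have hk0 : (2 ^ (T - m) - 1) + 1 = 2 ^ (T - m) := by
        have := Nat.two_pow_pos (T - m)
        omega
      rw [pow_succ, Matrix.mul_apply, sum_eq_single ⟨2 ^ (T - m) - 1, hlt⟩]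
      · have lk : len ⟨2 ^ (T - m) - 1, hlt⟩ = T - m + 1 := by rw [hlen, hk0, len_pow]
        rw [ih (by omega) i _ hi (by omega), if_pos hk0, one_mul, hK, if_pos (by omega), hk0,
          occ_pow _ _ (by rw [← hlen]; omega), ← hlen]
        have : len j - 1 = T - (m + 1) := by omega
        rw [this]
        split_ifs <;> simp
      · intro k _ hk
        rw [hK]
        split_ifs with h3
        · by_cases h4 : len k + m = T + 1
          · rw [ih (by omega) i k hi h4, if_neg (fun e => hk (Fin.ext (by simp only; omega))),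
              zero_mul]
          · rw [hz m i k (by omega), zero_mul]
        · simp
      · simp
  have hKT : (K ^ T) i j = if i.val + 1 = 2 ^ T ∧ j.val + 1 = 1 then 1 else 0 := by
    by_cases hi : i.val + 1 = 2 ^ T
    · have li : len i = T + 1 := by rw [hlen, hi, len_pow]
      by_cases hj : len j = 1
      · rw [hq T le_rfl i j hi (by omega)]
        simp [hi]
      · rw [hz T i j (by have := l1 j; omega), if_neg]
        rintro ⟨-, e⟩
        apply hj
        rw [hlen, e]
        exact len_pow 0
    · have := len_lt (a := i.val + 1) (t := T) (by have := i.2; omega)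
      rw [← hlen] at this
      rw [hz T i j (by have := l1 j; omega), if_neg (fun h => hi h.1)]
  apply (ZMod.intCast_eq_intCast_iff _ _ 2).mp
  have e1 : (((M (2 ^ T) ^ T) i j : ℤ) : ZMod 2) =
      ((Int.castRingHom (ZMod 2)).mapMatrix (M (2 ^ T) ^ T)) i j := rfl
  have : Nonempty (Fin (2 ^ T)) := ⟨i⟩
  have e2 : (1 + K) ^ T = 1 + K ^ T := by
    have := add_pow_char_pow_of_commute (R := Matrix (Fin (2 ^ T)) (Fin (2 ^ T)) (ZMod 2)) 2 n
      (Commute.one_left K)
    rw [one_pow, ← hT] at this
    exact this
  rw [e1, map_pow, hM, e2, Matrix.add_apply, hKT, Matrix.one_apply]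
  push_cast
  rfl

theorem result (n : ℕ) (_hn : 1 ≤ n) (i j : Fin (2 ^ 2 ^ n)) :
    (M (2 ^ 2 ^ n) ^ 2 ^ n) i j ≡
      (if i = j then 1 else 0) + (if i.val + 1 = 2 ^ 2 ^ n ∧ j.val + 1 = 1 then 1 else 0)
      [ZMOD 2] := main n _ rfl i j

end Pool.Agent.Results.MP_b7336c_co.Power
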